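import Pool.Agent.H71.AL.Targets

/-!
# Conjugation actions on ordered lines: row MES: the class of canonical orders is Borel
-/

set_option autoImplicit false

open Set

open Pool.Agent.AL

namespace Pool.Agent.H11.ALV

theorem m_ap (k : ℕ) {f : Y → ℕ} (hf : Measurable f) : Measurable fun y : Y => y.2 k (f y) := by
  have h1 : Measurable fun p : ℕ × (ℕ → ℕ) => p.2 p.1 :=
    measurable_from_prod_countable_right fun n => measurable_pi_apply n
  exact h1.comp (hf.prodMk ((measurable_pi_apply k).comp measurable_snd))

theorem m_lt {f g : Y → ℕ} (hf : Measurable f) (hg : Measurable g) :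
    Measurable fun y : Y => lt y (f y) (g y) := by
  have h1 : Measurable fun p : (ℕ × ℕ) × (ℕ → ℕ → Bool) => p.2 p.1.1 p.1.2 :=
    measurable_from_prod_countable_right fun n =>
      (measurable_pi_apply n.2).comp (measurable_pi_apply n.1)
  have h2 : Measurable fun y : Y => y.1 (f y) (g y) :=
    h1.comp ((hf.prodMk hg).prodMk measurable_fst)
  have h3 : MeasurableSet {y : Y | lt y (f y) (g y)} := h2 (measurableSet_singleton true)
  exact measurableSet_setOfPred.1 h3

theorem m_eq {f g : Y → ℕ} (hf : Measurable f) (hg : Measurable g) :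
    Measurable fun y : Y => f y = g y :=
  measurableSet_setOfPred.1 (measurableSet_eq_fun hf hg)

theorem m_wd (w : List ℕ) {f : Y → ℕ} (hf : Measurable f) :
    Measurable fun y : Y => wd y.2 w (f y) := by
  induction w with
  | nil => exact hf
  | cons k w ih => exact m_ap k ih

theorem m_it (w : List ℕ) (n a : ℕ) : Measurable fun y : Y => (wd y.2 w)^[n] a := by
  induction n with
  | zero => exact measurable_const
  | succ n ih =>
    simp only [Function.iterate_succ_apply']
    exact m_wd w ih

theorem c_lt (a b : ℕ) : Measurable fun y : Y => lt y a b := m_lt measurable_const measurable_const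

theorem m_Inc (w : List ℕ) : Measurable fun y : Y => Inc (lt y) (wd y.2 w) :=
  Measurable.forall fun a => Measurable.forall fun b =>
    (c_lt a b).imp (m_lt (m_wd w measurable_const) (m_wd w measurable_const))

theorem m_Dec (w : List ℕ) : Measurable fun y : Y => Dec (lt y) (wd y.2 w) :=
  Measurable.forall fun a => Measurable.forall fun b =>
    (c_lt a b).imp (m_lt (m_wd w measurable_const) (m_wd w measurable_const))

theorem m_Inc' (k : ℕ) : Measurable fun y : Y => Inc (lt y) (y.2 k) :=
  Measurable.forall fun a => Measurable.forall fun b =>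
    (c_lt a b).imp (m_lt (m_ap k measurable_const) (m_ap k measurable_const))

theorem m_Dec' (k : ℕ) : Measurable fun y : Y => Dec (lt y) (y.2 k) :=
  Measurable.forall fun a => Measurable.forall fun b =>
    (c_lt a b).imp (m_lt (m_ap k measurable_const) (m_ap k measurable_const))

theorem m_Gd (p q : ℕ) : Measurable fun y : Y => Gd (lt y) (wd y.2) p q := by
  unfold Gd
  refine (c_lt p q).and (Measurable.forall fun w => Measurable.or ?_ ?_)
  · exact Measurable.forall fun x => (c_lt p x).imp ((c_lt x q).imp
      ((m_lt measurable_const (m_wd w measurable_const)).and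
        (m_lt (m_wd w measurable_const) measurable_const)).not)
  · exact Measurable.forall fun x => (c_lt p x).imp ((c_lt x q).imp
      (m_eq (m_wd w measurable_const) measurable_const))

theorem m_Ws (x : ℕ) : Measurable fun y : Y => Ws (lt y) (wd y.2) x :=
  Measurable.exists fun p => Measurable.exists fun q =>
    (m_Gd p q).and ((c_lt p x).and (c_lt x q))

theorem m_Sr (a b : ℕ) : Measurable fun y : Y => Sr (lt y) (wd y.2) a b :=
  Measurable.exists fun p => Measurable.exists fun q =>
    (m_Gd p q).and (((c_lt p a).and (c_lt a q)).and ((c_lt p b).and (c_lt b q)))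

theorem m_Lm (w : List ℕ) (a x : ℕ) : Measurable fun y : Y => Lm (lt y) (wd y.2 w) a x := by
  unfold Lm
  refine Measurable.or ?_ ?_
  · exact (c_lt a x).and ((Measurable.forall fun n => m_lt (m_it w n a) measurable_const).and
      (Measurable.forall fun z => (c_lt z x).imp (Measurable.exists fun n =>
        m_lt measurable_const (m_it w n a))))
  · exact (c_lt x a).and ((Measurable.forall fun n => m_lt measurable_const (m_it w n a)).and
      (Measurable.forall fun z => (c_lt x z).imp (Measurable.exists fun n =>
        m_lt (m_it w n a) measurable_const)))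

theorem m_E1 (x : ℕ) : Measurable fun y : Y => E1 (lt y) (wd y.2) x := by
  unfold E1
  exact (Measurable.exists fun w => Measurable.exists fun a => (m_Inc w).and (m_Lm w a x)).or
    (Measurable.exists fun w => (m_Dec w).and (m_eq (m_wd w measurable_const) measurable_const))

theorem m_E2 (x : ℕ) : Measurable fun y : Y => E2 (lt y) (wd y.2) x := by
  unfold E2
  refine (m_Ws x).not.and (Measurable.exists fun a => Measurable.or ?_ ?_)
  · exact (c_lt a x).and (Measurable.forall fun z => (c_lt a z).imp ((c_lt z x).imp (m_Sr a z)))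
  · exact (c_lt x a).and (Measurable.forall fun z => (c_lt x z).imp ((c_lt z a).imp (m_Sr a z)))

theorem m_Es (x : ℕ) : Measurable fun y : Y => Es (lt y) (wd y.2) x := (m_E1 x).or (m_E2 x)

theorem m_Ln : Measurable fun y : Y => Ln y := by
  unfold Ln
  refine (Measurable.forall fun a => (c_lt a a).not).and (Measurable.and ?_ ?_)
  · exact Measurable.forall fun a => Measurable.forall fun b =>
      (measurable_const : Measurable fun _ : Y => a ≠ b).imp ((c_lt a b).or (c_lt b a))
  · exact Measurable.forall fun a => Measurable.forall fun b => Measurable.forall fun c =>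
      (c_lt a b).imp ((c_lt b c).imp (c_lt a c))

theorem m_DL : Measurable fun y : Y => DL y := by
  have h : (fun y : Y => DL y) = fun y : Y => Ln y ∧
      (∀ a b, lt y a b → ∃ c, lt y a c ∧ lt y c b) ∧ (∀ a, ∃ b, lt y a b) ∧
      (∀ a, ∃ b, lt y b a) ∧
      (∀ k m, y.2 (2 * k + 1) (y.2 (2 * k) m) = m ∧ y.2 (2 * k) (y.2 (2 * k + 1) m) = m) ∧
      ∀ k, Inc (lt y) (y.2 (2 * k)) ∨ Dec (lt y) (y.2 (2 * k)) :=
    funext fun y => propext ⟨fun h => ⟨h.1, h.2, h.3, h.4, h.5, h.6⟩,
      fun ⟨h1, h2, h3, h4, h5, h6⟩ => ⟨h1, h2, h3, h4, h5, h6⟩⟩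
  rw [h]
  refine m_Ln.and (Measurable.and ?_ (Measurable.and ?_ (Measurable.and ?_
    (Measurable.and ?_ ?_))))
  · exact Measurable.forall fun a => Measurable.forall fun b => (c_lt a b).imp
      (Measurable.exists fun c => (c_lt a c).and (c_lt c b))
  · exact Measurable.forall fun a => Measurable.exists fun b => c_lt a b
  · exact Measurable.forall fun a => Measurable.exists fun b => c_lt b a
  · exact Measurable.forall fun k => Measurable.forall fun m =>
      (m_eq (m_ap _ (m_ap _ measurable_const)) measurable_const).and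
        (m_eq (m_ap _ (m_ap _ measurable_const)) measurable_const)
  · exact Measurable.forall fun k => (m_Inc' _).or (m_Dec' _)

theorem m_Cn : Measurable fun y : Y => Cn (lt y) (wd y.2) := by
  have h : (fun y : Y => Cn (lt y) (wd y.2)) = fun y : Y =>
      (∀ (i : List ℕ) (a m : ℕ), Inc (lt y) (wd y.2 i) → lt y a (wd y.2 i a) →
        (∀ n : ℕ, lt y ((wd y.2 i)^[n] a) m) → ∃ x, Lm (lt y) (wd y.2 i) a x) ∧
      (∀ (i : List ℕ) (a m : ℕ), Inc (lt y) (wd y.2 i) → lt y (wd y.2 i a) a →
        (∀ n : ℕ, lt y m ((wd y.2 i)^[n] a)) → ∃ x, Lm (lt y) (wd y.2 i) a x) ∧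
      (∀ i : List ℕ, Dec (lt y) (wd y.2 i) → ∃ x, wd y.2 i x = x) ∧
      (∀ a m : ℕ, Ws (lt y) (wd y.2) a → lt y a m → ¬ Sr (lt y) (wd y.2) a m →
        (∃ x, lt y a x ∧ ¬ Ws (lt y) (wd y.2) x ∧
          ∀ z, lt y a z → lt y z x → Sr (lt y) (wd y.2) a z) ∨
        ∃ t z, lt y a t ∧ lt y t z ∧ Sr (lt y) (wd y.2) a t ∧ Sr (lt y) (wd y.2) t z ∧
          ¬ Sr (lt y) (wd y.2) a z) ∧
      (∀ a m : ℕ, Ws (lt y) (wd y.2) a → lt y m a → ¬ Sr (lt y) (wd y.2) a m →
        (∃ x, lt y x a ∧ ¬ Ws (lt y) (wd y.2) x ∧
          ∀ z, lt y x z → lt y z a → Sr (lt y) (wd y.2) a z) ∨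
        ∃ t z, lt y t a ∧ lt y z t ∧ Sr (lt y) (wd y.2) a t ∧ Sr (lt y) (wd y.2) t z ∧
          ¬ Sr (lt y) (wd y.2) a z) ∧
      (∀ x : ℕ, Es (lt y) (wd y.2) x ∨ ∃ p q, lt y p x ∧ lt y x q ∧
        ∀ z, lt y p z → lt y z q → ¬ Es (lt y) (wd y.2) z) ∧
      ∀ x x' : ℕ, lt y x x' → (∃ p q, lt y p x ∧ lt y x' q ∧
        ∀ z, lt y p z → lt y z q → ¬ Es (lt y) (wd y.2) z) →
        ¬ Ws (lt y) (wd y.2) x → ∃ i : List ℕ, wd y.2 i x = x' :=
    funext fun y => propext ⟨fun h => ⟨h.1, h.2, h.3, h.4, h.5, h.6, h.7⟩,
      fun ⟨h1, h2, h3, h4, h5, h6, h7⟩ => ⟨h1, h2, h3, h4, h5, h6, h7⟩⟩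
  rw [h]
  refine Measurable.and ?_ (Measurable.and ?_ (Measurable.and ?_ (Measurable.and ?_
    (Measurable.and ?_ (Measurable.and ?_ ?_)))))
  · exact Measurable.forall fun w => Measurable.forall fun a => Measurable.forall fun m =>
      (m_Inc w).imp ((m_lt measurable_const (m_wd w measurable_const)).imp
        ((Measurable.forall fun n => m_lt (m_it w n a) measurable_const).imp
          (Measurable.exists fun x => m_Lm w a x)))
  · exact Measurable.forall fun w => Measurable.forall fun a => Measurable.forall fun m =>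
      (m_Inc w).imp ((m_lt (m_wd w measurable_const) measurable_const).imp
        ((Measurable.forall fun n => m_lt measurable_const (m_it w n a)).imp
          (Measurable.exists fun x => m_Lm w a x)))
  · exact Measurable.forall fun w => (m_Dec w).imp (Measurable.exists fun x =>
      m_eq (m_wd w measurable_const) measurable_const)
  · exact Measurable.forall fun a => Measurable.forall fun m => (m_Ws a).imp ((c_lt a m).imp
      ((m_Sr a m).not.imp (Measurable.or
        (Measurable.exists fun x => (c_lt a x).and ((m_Ws x).not.and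
          (Measurable.forall fun z => (c_lt a z).imp ((c_lt z x).imp (m_Sr a z)))))
        (Measurable.exists fun t => Measurable.exists fun z => (c_lt a t).and ((c_lt t z).and
          ((m_Sr a t).and ((m_Sr t z).and (m_Sr a z).not)))))))
  · exact Measurable.forall fun a => Measurable.forall fun m => (m_Ws a).imp ((c_lt m a).imp
      ((m_Sr a m).not.imp (Measurable.or
        (Measurable.exists fun x => (c_lt x a).and ((m_Ws x).not.and
          (Measurable.forall fun z => (c_lt x z).imp ((c_lt z a).imp (m_Sr a z)))))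
        (Measurable.exists fun t => Measurable.exists fun z => (c_lt t a).and ((c_lt z t).and
          ((m_Sr a t).and ((m_Sr t z).and (m_Sr a z).not)))))))
  · exact Measurable.forall fun x => (m_Es x).or (Measurable.exists fun p =>
      Measurable.exists fun q => (c_lt p x).and ((c_lt x q).and
        (Measurable.forall fun z => (c_lt p z).imp ((c_lt z q).imp (m_Es z).not))))
  · exact Measurable.forall fun x => Measurable.forall fun x' => (c_lt x x').imp
      ((Measurable.exists fun p => Measurable.exists fun q => (c_lt p x).and ((c_lt x' q).and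
        (Measurable.forall fun z => (c_lt p z).imp ((c_lt z q).imp (m_Es z).not)))).imp
        ((m_Ws x).not.imp (Measurable.exists fun w =>
          m_eq (m_wd w measurable_const) measurable_const)))

theorem pf_MES : T_MES := measurableSet_setOfPred.2 (m_DL.and m_Cn)

end Pool.Agent.H11.ALV
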